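import Mathlib

set_option autoImplicit false

namespace Pool.Agent.Results.MP_b85c6a_co.HammingLowerBound

open Finset Filter Topology

/-! ### Definitions -/

/-- The Hamming graph `H(d, n)`: vertices are `d`-tuples over `Fin n`, two tuples being adjacent
when they differ in exactly one coordinate. -/
def hammingGraph (d n : ℕ) : SimpleGraph (Fin d → Fin n) where
  Adj x y := hammingDist x y = 1
  symm := ⟨fun x y h => by rw [hammingDist_comm]; exact h⟩
  loopless := ⟨fun x h => by simp [hammingDist_self] at h⟩

/-- `k` cops can guarantee seeing the robber in the `l`-visibility game on `G`.  Until the robber is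
seen the cops receive no information, so a strategy is a sequence of positions `c 0, c 1, ...`, each
cop staying put or moving to a neighbour in each round.  The robber starts at `r 0`; in round `t` the
cops move from `c t` to `c (t + 1)`, and then the robber moves from `r t` to `r (t + 1)` or stays
put.  He is seen when some cop is at distance at most `l` from him, either after his own move
(or the initial placement) or after the move of the cops. -/
def CopsSee {V : Type} (G : SimpleGraph V) (l k : ℕ) : Prop :=
  ∃ c : ℕ → Fin k → V, (∀ t a, c (t + 1) a = c t a ∨ G.Adj (c t a) (c (t + 1) a)) ∧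
    ∀ r : ℕ → V, (∀ t, r (t + 1) = r t ∨ G.Adj (r t) (r (t + 1))) →
      ∃ t a, G.dist (c t a) (r t) ≤ l ∨ G.dist (c (t + 1) a) (r t) ≤ l

/-- The least number of cops that can guarantee seeing the robber in the `l`-visibility game. -/
noncomputable def searchNumber {V : Type} (G : SimpleGraph V) (l : ℕ) : ℕ :=
  sInf {k | CopsSee G l k}

/-! ### The graph distance is at least the Hamming distance -/

lemma hammingDist_le_length {d n : ℕ} {x y : Fin d → Fin n} (p : (hammingGraph d n).Walk x y) :
    hammingDist x y ≤ p.length := by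
  induction p with
  | nil => simp
  | @cons u v w h p ih =>
    have h1 : hammingDist u v = 1 := h
    have h2 := hammingDist_triangle u v w
    rw [SimpleGraph.Walk.length_cons]
    omega

lemma reach_all {d n : ℕ} : ∀ (m : ℕ) (x y : Fin d → Fin n), hammingDist x y = m →
    (hammingGraph d n).Reachable x y := by
  intro m
  induction m with
  | zero =>
    intro x y h
    rw [hammingDist_eq_zero] at h
    rw [h]
  | succ m ih =>
    intro x y h
    have hne : x ≠ y := by
      intro h'; rw [h'] at h; simp at h
    obtain ⟨i, hi⟩ := Function.ne_iff.1 hne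
    have h1 : (hammingGraph d n).Adj x (Function.update x i (y i)) := by
      change hammingDist x (Function.update x i (y i)) = 1
      unfold hammingDist
      rw [Finset.card_eq_one]
      refine ⟨i, ?_⟩
      ext j
      simp only [Finset.mem_filter, Finset.mem_univ, true_and, Finset.mem_singleton]
      by_cases hj : j = i
      · subst hj; simp [hi]
      · simp [hj]
    have h2 : hammingDist (Function.update x i (y i)) y = m := by
      have : (Finset.univ.filter fun j => x j ≠ y j) =
          insert i (Finset.univ.filter fun j => Function.update x i (y i) j ≠ y j) := by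
        ext j
        simp only [Finset.mem_filter, Finset.mem_univ, true_and, Finset.mem_insert]
        by_cases hj : j = i
        · subst hj; simp [hi]
        · simp [hj]
      have hc : hammingDist x y = (Finset.univ.filter fun j => x j ≠ y j).card := rfl
      rw [this, Finset.card_insert_of_notMem (by simp)] at hc
      have hc' : hammingDist (Function.update x i (y i)) y =
        (Finset.univ.filter fun j => Function.update x i (y i) j ≠ y j).card := rfl
      omega
    exact h1.reachable.trans (ih _ _ h2)

lemma hammingDist_le_dist {d n : ℕ} (x y : Fin d → Fin n) :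
    hammingDist x y ≤ (hammingGraph d n).dist x y := by
  obtain ⟨p, hp⟩ := (reach_all _ x y rfl).exists_walk_length_eq_dist
  rw [← hp]
  exact hammingDist_le_length p

/-! ### The cup game -/

/-- heights after emptying. -/
noncomputable def argmax {d : ℕ} (hd : 0 < d) (g : Fin d → ℕ) : Fin d :=
  haveI : Nonempty (Fin d) := ⟨⟨0, hd⟩⟩
  (Finite.exists_max g).choose

lemma argmax_spec {d : ℕ} (hd : 0 < d) (g : Fin d → ℕ) (i : Fin d) : g i ≤ g (argmax hd g) :=
  haveI : Nonempty (Fin d) := ⟨⟨0, hd⟩⟩
  (Finite.exists_max g).choose_spec i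

noncomputable def height {d : ℕ} (hd : 0 < d) (m : ℕ → Fin d → ℕ) : ℕ → Fin d → ℕ
  | 0 => fun _ => 0
  | t + 1 => fun i =>
      if i = argmax hd (fun i => height hd m t i + m t i) then 0 else height hd m t i + m t i

noncomputable def emptied {d : ℕ} (hd : 0 < d) (m : ℕ → Fin d → ℕ) (t : ℕ) : Fin d :=
  argmax hd (fun i => height hd m t i + m t i)

lemma height_succ {d : ℕ} (hd : 0 < d) (m : ℕ → Fin d → ℕ) (t : ℕ) (i : Fin d) :
    height hd m (t + 1) i = if i = emptied hd m t then 0 else height hd m t i + m t i := rfl

/-- The bound for the sum over `j` cups. -/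
noncomputable def A (d j : ℕ) : ℝ := j * (1 + (harmonic (d - 1) : ℝ) - (harmonic j : ℝ))

lemma harmonic_succ_real (j : ℕ) : (harmonic (j + 1) : ℝ) = harmonic j + 1 / ((j : ℝ) + 1) := by
  rw [harmonic_succ]
  push_cast
  rw [one_div]

lemma A_rec (d j : ℕ) : ((j : ℝ) + 1) * A d j = j * (A d (j + 1) + 1) := by
  unfold A
  rw [harmonic_succ_real]
  have : (j : ℝ) + 1 ≠ 0 := by positivity
  push_cast
  field_simp
  ring

lemma harmonic_mono {a b : ℕ} (h : a ≤ b) : (harmonic a : ℝ) ≤ harmonic b := by
  induction b, h using Nat.le_induction with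
  | base => exact le_rfl
  | succ b _ ih =>
    rw [harmonic_succ_real]
    have : 0 ≤ 1 / ((b : ℝ) + 1) := by positivity
    linarith

lemma A_mono {d j : ℕ} (hj : j + 1 ≤ d) : A d j ≤ A d (j + 1) := by
  have h1 := A_rec d j
  -- `A d (j+1) ≥ j`
  have h2 : (j : ℝ) ≤ A d (j + 1) := by
    unfold A
    rw [harmonic_succ_real]
    have h3 : (harmonic j : ℝ) ≤ harmonic (d - 1) := harmonic_mono (by omega)
    have h4 : ((j : ℝ) + 1) * (1 / ((j : ℝ) + 1)) = 1 := by field_simp
    have h5 : (0 : ℝ) ≤ (j : ℝ) + 1 := by positivity
    push_cast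
    nlinarith
  have h5 : (0 : ℝ) < (j : ℝ) + 1 := by positivity
  by_contra hcon
  push Not at hcon
  nlinarith

lemma A_one (d : ℕ) : A d 1 = harmonic (d - 1) := by
  have h1 : (harmonic 1 : ℝ) = 1 := by
    have := harmonic_succ_real 0
    simpa using this
  unfold A
  rw [h1]
  push_cast
  ring

lemma A_nonneg_one (d : ℕ) : 0 ≤ A d 1 := by
  rw [A_one]
  have := harmonic_mono (Nat.zero_le (d - 1))
  simpa using this

lemma sum_height {d : ℕ} (hd : 0 < d) (m : ℕ → Fin d → ℕ) (k : ℕ)
    (hm : ∀ t, ∑ i, m t i ≤ k) (t : ℕ) :
    ∀ S : Finset (Fin d), S.Nonempty →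
      (∑ i ∈ S, (height hd m t i : ℝ)) ≤ A d S.card * k := by
  induction t with
  | zero =>
    intro S hS
    have h0 : ∑ i ∈ S, (height hd m 0 i : ℝ) = 0 := by
      apply Finset.sum_eq_zero
      intro i _
      simp [height]
    rw [h0]
    have hc : S.card ≤ d := by simpa using Finset.card_le_univ S
    have hc1 : 1 ≤ S.card := hS.card_pos
    have hA : 0 ≤ A d S.card := by
      have : ∀ j, 1 ≤ j → j ≤ d → 0 ≤ A d j := by
        intro j hj
        induction j, hj using Nat.le_induction with
        | base => intro _; exact A_nonneg_one d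
        | succ j _ ih => intro hj'; exact le_trans (ih (by omega)) (A_mono hj')
      exact this _ hc1 hc
    positivity
  | succ t ih =>
    -- sums of a set avoiding the emptied cup
    have key : ∀ S : Finset (Fin d), S.Nonempty → emptied hd m t ∉ S →
        (∑ i ∈ S, (height hd m (t + 1) i : ℝ)) ≤ A d S.card * k := by
      intro S hS hM
      set M := emptied hd m t with hMdef
      have h1 : ∑ i ∈ S, (height hd m (t + 1) i : ℝ) =
          ∑ i ∈ S, ((height hd m t i : ℝ) + m t i) := by
        apply Finset.sum_congr rfl
        intro i hi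
        have : i ≠ M := fun h => hM (h ▸ hi)
        rw [height_succ, if_neg this]
        push_cast
        rfl
      rw [h1]
      have h2 : ∑ i ∈ S, ((height hd m t i : ℝ) + m t i) ≤
          S.card * ((height hd m t M : ℝ) + m t M) := by
        rw [← nsmul_eq_mul]
        apply Finset.sum_le_card_nsmul
        intro i _
        exact_mod_cast argmax_spec hd (fun i => height hd m t i + m t i) i
      have h3 := ih (insert M S) (Finset.insert_nonempty _ _)
      rw [Finset.card_insert_of_notMem hM, Finset.sum_insert hM] at h3
      have h4 : (∑ i ∈ insert M S, (m t i : ℝ)) ≤ k := by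
        have : ∑ i ∈ insert M S, m t i ≤ ∑ i, m t i :=
          Finset.sum_le_sum_of_subset (Finset.subset_univ _)
        exact_mod_cast le_trans this (hm t)
      rw [Finset.sum_insert hM] at h4
      have h5 : ∑ i ∈ S, ((height hd m t i : ℝ) + m t i) =
          ∑ i ∈ S, (height hd m t i : ℝ) + ∑ i ∈ S, (m t i : ℝ) := Finset.sum_add_distrib
      have h6 := A_rec d S.card
      set s : ℝ := ∑ i ∈ S, ((height hd m t i : ℝ) + m t i) with hs
      have h7 : ((S.card : ℝ) + 1) * s ≤ S.card * ((A d (S.card + 1) + 1) * k) := by
        have h8 : s + ((height hd m t M : ℝ) + m t M) ≤ (A d (S.card + 1) + 1) * k := by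
          rw [h5]; linarith
        have h9 : (0 : ℝ) ≤ S.card := by positivity
        nlinarith
      have h10 : ((S.card : ℝ) + 1) * s ≤ ((S.card : ℝ) + 1) * (A d S.card * k) := by
        calc ((S.card : ℝ) + 1) * s ≤ S.card * ((A d (S.card + 1) + 1) * k) := h7
          _ = (S.card * (A d (S.card + 1) + 1)) * k := by ring
          _ = (((S.card : ℝ) + 1) * A d S.card) * k := by rw [h6]
          _ = ((S.card : ℝ) + 1) * (A d S.card * k) := by ring
      exact le_of_mul_le_mul_left h10 (by positivity)
    intro S hS
    by_cases hM : emptied hd m t ∈ S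
    · have h0 : (height hd m (t + 1) (emptied hd m t) : ℝ) = 0 := by
        rw [height_succ, if_pos rfl]; simp
      rw [← Finset.insert_erase hM, Finset.sum_insert (Finset.notMem_erase _ _), h0, zero_add]
      rcases (S.erase (emptied hd m t)).eq_empty_or_nonempty with h | h
      · rw [h]
        simp only [Finset.sum_empty, insert_empty_eq, Finset.card_singleton]
        have := A_nonneg_one d
        positivity
      · have h1 := key _ h (Finset.notMem_erase _ _)
        rw [Finset.card_insert_of_notMem (Finset.notMem_erase _ _)]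
        refine le_trans h1 ?_
        have hc : (S.erase (emptied hd m t)).card + 1 ≤ d := by
          rw [Finset.card_erase_add_one hM]
          simpa using Finset.card_le_univ S
        have := A_mono hc
        have hk : (0 : ℝ) ≤ k := by positivity
        nlinarith
    · exact key S hS hM

lemma height_le {d : ℕ} (hd : 0 < d) (m : ℕ → Fin d → ℕ) (k : ℕ)
    (hm : ∀ t, ∑ i, m t i ≤ k) (t : ℕ) (i : Fin d) :
    (height hd m t i : ℝ) + m t i ≤ (harmonic (d - 1) + 1) * k := by
  have h1 := sum_height hd m k hm t {i} (Finset.singleton_nonempty _)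
  rw [Finset.sum_singleton, Finset.card_singleton, A_one] at h1
  have h2 : (m t i : ℝ) ≤ k := by
    have : m t i ≤ ∑ i, m t i := Finset.single_le_sum (f := m t) (fun _ _ => Nat.zero_le _)
      (Finset.mem_univ i)
    exact_mod_cast le_trans this (hm t)
  linarith

lemma height_ge {d : ℕ} (hd : 0 < d) (m : ℕ → Fin d → ℕ) (i : Fin d) (s : ℕ) (t : ℕ)
    (hst : s ≤ t) (h : ∀ u, s ≤ u → u < t → emptied hd m u ≠ i) :
    ∑ u ∈ Finset.Ico s t, m u i ≤ height hd m t i := by
  induction t, hst using Nat.le_induction with
  | base => simp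
  | succ t hst ih =>
    rw [Finset.sum_Ico_succ_top hst, height_succ,
      if_neg (fun h' => h t hst (Nat.lt_succ_self t) h'.symm)]
    have := ih (fun u hu hut => h u hu (Nat.lt_succ_of_lt hut))
    omega

/-! ### The robber's strategy -/

section Robber

variable {d n k : ℕ} (c : ℕ → Fin k → (Fin d → Fin n))

/-- number of cops that change coordinate `i` in round `t` -/
def moved (t : ℕ) (i : Fin d) : ℕ := (Finset.univ.filter fun a => c (t + 1) a i ≠ c t a i).card

lemma sum_moved (hc : ∀ t a, c (t + 1) a = c t a ∨ (hammingGraph d n).Adj (c t a) (c (t + 1) a))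
    (t : ℕ) : ∑ i, moved c t i ≤ k := by
  have h1 : ∑ i, moved c t i = ∑ a : Fin k, (Finset.univ.filter fun i => c (t + 1) a i ≠ c t a i).card := by
    unfold moved
    simp only [Finset.card_filter]
    rw [Finset.sum_comm]
  rw [h1]
  have h2 : ∀ a : Fin k, (Finset.univ.filter fun i => c (t + 1) a i ≠ c t a i).card ≤ 1 := by
    intro a
    rcases hc t a with h | h
    · rw [h]; simp
    · have : hammingDist (c t a) (c (t + 1) a) = 1 := h
      rw [hammingDist_comm] at this
      exact le_of_eq this
  calc ∑ a : Fin k, (Finset.univ.filter fun i => c (t + 1) a i ≠ c t a i).card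
      ≤ ∑ a : Fin k, 1 := Finset.sum_le_sum fun a _ => h2 a
    _ = k := by simp

/-- values of coordinate `i` occupied by cops between times `s` and `t` -/
def occ (i : Fin d) (s t : ℕ) : Finset (Fin n) :=
  (Finset.Icc s t).biUnion fun u => Finset.univ.image fun a => c u a i

lemma card_occ (i : Fin d) (s t : ℕ) (hst : s ≤ t) :
    (occ c i s t).card ≤ k + ∑ u ∈ Finset.Ico s t, moved c u i := by
  induction t, hst using Nat.le_induction with
  | base =>
    simp only [occ, Finset.Icc_self, Finset.singleton_biUnion, Finset.Ico_self, Finset.sum_empty,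
      add_zero]
    exact le_trans Finset.card_image_le (by simp)
  | succ t hst ih =>
    rw [Finset.sum_Ico_succ_top hst]
    have hsub : occ c i s (t + 1) ⊆ occ c i s t ∪
        (Finset.univ.filter fun a => c (t + 1) a i ≠ c t a i).image fun a => c (t + 1) a i := by
      intro v hv
      simp only [occ, Finset.mem_biUnion, Finset.mem_Icc, Finset.mem_image, Finset.mem_univ,
        true_and, Finset.mem_union, Finset.mem_filter] at hv ⊢
      obtain ⟨u, ⟨hu1, hu2⟩, a, ha⟩ := hv
      rcases Nat.lt_or_ge t u with h | h
      · have : u = t + 1 := by omega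
        subst this
        by_cases hEq : c (t + 1) a i = c t a i
        · left
          exact ⟨t, ⟨hst, le_rfl⟩, a, hEq ▸ ha⟩
        · right
          exact ⟨a, hEq, ha⟩
      · left
        exact ⟨u, ⟨hu1, h⟩, a, ha⟩
    calc (occ c i s (t + 1)).card ≤ _ := Finset.card_le_card hsub
      _ ≤ (occ c i s t).card + _ := Finset.card_union_le _ _
      _ ≤ (k + ∑ u ∈ Finset.Ico s t, moved c u i) + moved c t i := by
          gcongr
          exact Finset.card_image_le
      _ = k + (∑ u ∈ Finset.Ico s t, moved c u i + moved c t i) := by ring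

lemma exists_value (hd : 0 < d)
    (hc : ∀ t a, c (t + 1) a = c t a ∨ (hammingGraph d n).Adj (c t a) (c (t + 1) a))
    (hn : (2 + (harmonic (d - 1) : ℝ)) * k < n) (i : Fin d) (s : ℕ) :
    ∃ v : Fin n, ∀ t, s ≤ t → (∀ u, s ≤ u → u + 1 < t → emptied hd (moved c) u ≠ i) →
      ∀ a, c t a i ≠ v := by
  by_contra hcon
  push Not at hcon
  choose T hT1 hT2 a ha using hcon
  -- the latest witness
  have hne : Nonempty (Fin n) := by
    have h0 : (0 : ℝ) < n := lt_of_le_of_lt (by
      have := harmonic_mono (Nat.zero_le (d - 1))
      simp at this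
      positivity) hn
    exact ⟨⟨0, by exact_mod_cast h0⟩⟩
  obtain ⟨v0, hv0⟩ := Finite.exists_max T
  have huniv : (Finset.univ : Finset (Fin n)) ⊆ occ c i s (T v0) := by
    intro v _
    simp only [occ, Finset.mem_biUnion, Finset.mem_Icc, Finset.mem_image, Finset.mem_univ,
      true_and]
    exact ⟨T v, ⟨hT1 v, hv0 v⟩, a v, ha v⟩
  have h1 : n ≤ (occ c i s (T v0)).card := by
    simpa using Finset.card_le_card huniv
  have h2 := card_occ c i s (T v0) (hT1 v0)
  -- bound the sum by the height
  have h3 : ((∑ u ∈ Finset.Ico s (T v0), moved c u i : ℕ) : ℝ) ≤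
      ((harmonic (d - 1) : ℝ) + 1) * k := by
    rcases Nat.eq_or_lt_of_le (hT1 v0) with h | h
    · rw [← h]
      simp only [Finset.Ico_self, Finset.sum_empty, Nat.cast_zero]
      have := harmonic_mono (Nat.zero_le (d - 1))
      simp only [harmonic_zero, Rat.cast_zero] at this
      positivity
    · obtain ⟨w, hw⟩ : ∃ w, T v0 = w + 1 := ⟨T v0 - 1, by omega⟩
      rw [hw, Finset.sum_Ico_succ_top (by omega)]
      have h4 := height_ge hd (moved c) i s w (by omega)
        (fun u hu huw => hT2 v0 u hu (by omega))
      have h5 := height_le hd (moved c) k (sum_moved c hc) w i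
      have h6 : ((∑ u ∈ Finset.Ico s w, moved c u i : ℕ) : ℝ) ≤ height hd (moved c) w i := by
        exact_mod_cast h4
      push_cast at h6 ⊢
      linarith
  have h7 : (n : ℝ) ≤ k + (∑ u ∈ Finset.Ico s (T v0), moved c u i : ℕ) := by
    exact_mod_cast le_trans h1 h2
  nlinarith

/-- last refresh time of coordinate `i` -/
noncomputable def last (hd : 0 < d) (i : Fin d) : ℕ → ℕ
  | 0 => 0
  | t + 1 => if emptied hd (moved c) t = i then t + 1 else last hd i t

lemma last_le (hd : 0 < d) (i : Fin d) (t : ℕ) : last c hd i t ≤ t := by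
  induction t with
  | zero => simp [last]
  | succ t ih =>
    unfold last
    split_ifs
    · exact le_rfl
    · omega

lemma last_spec (hd : 0 < d) (i : Fin d) (t : ℕ) :
    ∀ u, last c hd i t ≤ u → u < t → emptied hd (moved c) u ≠ i := by
  induction t with
  | zero => intro u _ hu; omega
  | succ t ih =>
    intro u hu hut
    unfold last at hu
    split_ifs at hu with h
    · omega
    · rcases Nat.lt_succ_iff_lt_or_eq.1 hut with h' | h'
      · exact ih u hu h'
      · rw [h']; exact h

end Robber

lemma lower {d n k : ℕ} (hd : 0 < d) (h : CopsSee (hammingGraph d n) (d - 1) k) :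
    (n : ℝ) ≤ (2 + (harmonic (d - 1) : ℝ)) * k := by
  by_contra hn
  push Not at hn
  obtain ⟨c, hc, hsee⟩ := h
  choose val hval using fun i s => exists_value c hd hc hn i s
  obtain ⟨t, a, h⟩ := hsee (fun t i => val i (last c hd i t)) (by
    intro t
    by_cases hEq : (fun i => val i (last c hd i (t + 1))) = (fun i => val i (last c hd i t))
    · left; exact hEq
    · right
      change hammingDist _ _ = 1
      have hsub : (Finset.univ.filter fun i => val i (last c hd i t) ≠
          val i (last c hd i (t + 1))) ⊆ {emptied hd (moved c) t} := by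
        intro i hi
        simp only [Finset.mem_filter, Finset.mem_univ, true_and] at hi
        rw [Finset.mem_singleton]
        by_contra hne
        apply hi
        rw [show last c hd i (t + 1) = last c hd i t by
          rw [last, if_neg (fun h => hne h.symm)]]
      have h1 := Finset.card_le_card hsub
      rw [Finset.card_singleton] at h1
      have h2 : hammingDist (fun i => val i (last c hd i t))
          (fun i => val i (last c hd i (t + 1))) ≠ 0 := by
        intro h0
        exact hEq (hammingDist_eq_zero.1 h0).symm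
      have h3 : hammingDist (fun i => val i (last c hd i t))
          (fun i => val i (last c hd i (t + 1))) ≤ 1 := h1
      omega)
  -- the robber shares no coordinate with a cop
  have hfar : ∀ (s : ℕ), t ≤ s → s ≤ t + 1 →
      ¬ (hammingGraph d n).dist (c s a) (fun i => val i (last c hd i t)) ≤ d - 1 := by
    intro s hs1 hs2 hle
    have h1 := hammingDist_le_dist (c s a) (fun i => val i (last c hd i t))
    have h2 : hammingDist (c s a) (fun i => val i (last c hd i t)) = d := by
      unfold hammingDist
      rw [Finset.filter_true_of_mem]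
      · simp
      · intro i _
        exact hval i (last c hd i t) s (le_trans (last_le c hd i t) hs1)
          (fun u hu hus => last_spec c hd i t u hu (by omega)) a
    omega
  rcases h with h | h
  · exact hfar t le_rfl (Nat.le_succ t) h
  · exact hfar (t + 1) (Nat.le_succ t) le_rfl h

lemma copsSee_nonempty {V : Type} [Fintype V] (G : SimpleGraph V) (l : ℕ) :
    {k | CopsSee G l k}.Nonempty := by
  refine ⟨Fintype.card V, fun _ a => (Fintype.equivFin V).symm a, fun t a => Or.inl rfl, ?_⟩
  intro r _
  exact ⟨0, Fintype.equivFin V (r 0), Or.inl (by simp)⟩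

lemma bound {d n : ℕ} (hd : 1 ≤ d) :
    (n : ℝ) ≤ (2 + (harmonic (d - 1) : ℝ)) * searchNumber (hammingGraph d n) (d - 1) :=
  lower hd (Nat.sInf_mem (copsSee_nonempty (hammingGraph d n) (d - 1)))

/-- For all `d ≥ 1` and all `n` one has `c'_{d-1}(H(d,n)) ≥ n / (2 + H_{d-1})`, where `H_{d-1}` is
the harmonic number; since `2 + H_2 = 7/2 < 4`, the conjectured asymptotics
`c'_{d-1}(H(d,n)) = (1+o(1)) n/(d+1)` fails. -/
theorem result :
    (∀ d n : ℕ, 1 ≤ d →
      (n : ℝ) ≤ (2 + (harmonic (d - 1) : ℝ)) * searchNumber (hammingGraph d n) (d - 1)) ∧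
    ¬ (∀ d : ℕ, 1 ≤ d →
      Tendsto (fun n : ℕ => (searchNumber (hammingGraph d n) (d - 1) : ℝ) / ((n : ℝ) / (d + 1)))
        atTop (𝓝 1)) := by
  refine ⟨fun d n hd => bound hd, fun h => ?_⟩
  have h3 := h 3 (by norm_num)
  have hge : ∀ᶠ n : ℕ in atTop,
      (8 / 7 : ℝ) ≤ (searchNumber (hammingGraph 3 n) (3 - 1) : ℝ) / ((n : ℝ) / ((3 : ℕ) + 1)) := by
    filter_upwards [eventually_ge_atTop 1] with n hn
    have hb := bound (d := 3) (n := n) (by norm_num)
    have hH : (harmonic (3 - 1) : ℝ) = 3 / 2 := by
      norm_num [harmonic, Finset.sum_range_succ]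
    rw [hH] at hb
    have hn' : (0 : ℝ) < n := by exact_mod_cast hn
    rw [le_div_iff₀ (by positivity)]
    push_cast
    linarith
  have := ge_of_tendsto h3 hge
  norm_num at this

end Pool.Agent.Results.MP_b85c6a_co.HammingLowerBound
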